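import Mathlib
import Pool.Agent.Turan97.Final

/-!
# Atkinson's power sum constant is at most 0.6865
-/

namespace Pool.Agent.Results.MP_81964c_an.UpperBound

open Pool.Agent.Turan97

/-- There are `32768` complex numbers, the first one equal to `1`, such that the first `32768`
power sums have modulus at most `0.6865`. -/
theorem result : ∃ z : Fin 32768 → ℂ, z 0 = 1 ∧
    ∀ k : ℕ, 1 ≤ k → k ≤ 32768 → ‖∑ i, z i ^ k‖ ≤ 6865 / 10000 := by
  obtain ⟨z, ⟨i, hi⟩, hz⟩ := points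
  refine ⟨fun j => z (Equiv.swap 0 i j), ?_, fun k h1 h2 => ?_⟩
  · show z (Equiv.swap 0 i 0) = 1
    rw [Equiv.swap_apply_left, hi]
  · have h3 : ∑ j, z (Equiv.swap 0 i j) ^ k = ∑ j, z j ^ k :=
      Equiv.sum_comp (Equiv.swap 0 i) (fun j => z j ^ k)
    show ‖∑ j, z (Equiv.swap 0 i j) ^ k‖ ≤ 6865 / 10000
    rw [h3]
    exact hz k h1 h2

end Pool.Agent.Results.MP_81964c_an.UpperBound
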